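import Pool.Agent.H67.TCR.Main

/-!
MP_6c214f_co: transport of the frozen theorem to arbitrary finite graphs, and the graphs
`C₅(k 0, …, k 4)`.
-/

set_option autoImplicit false

open Finset

namespace Pool.Agent.H67.TCR

/-- diameter two -/
theorem diam_two_iff {V : Type*} (G : SimpleGraph V) :
    G.diam = 2 ↔ (∃ u v, u ≠ v ∧ ¬ G.Adj u v) ∧
      ∀ u v, u ≠ v → ¬ G.Adj u v → ∃ w, G.Adj u w ∧ G.Adj w v := by
  constructor
  · intro h
    have htop : G.ediam ≠ ⊤ := SimpleGraph.ediam_ne_top_of_diam_ne_zero (by omega)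
    have hed : G.ediam = 2 := by
      have h1 : ((G.ediam.toNat : ℕ) : ℕ∞) = G.ediam := ENat.natCast_toNat htop
      have h2 : G.ediam.toNat = 2 := h
      rw [h2] at h1
      exact h1.symm
    constructor
    · by_contra hcon
      push Not at hcon
      have h3 : G.ediam ≤ 1 := by
        apply SimpleGraph.ediam_le_of_edist_le
        intro u v
        rw [SimpleGraph.edist_le_one_iff_adj_or_eq]
        by_cases huv : u = v
        · exact Or.inr huv
        · exact Or.inl (hcon u v huv)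
      rw [hed] at h3
      exact absurd h3 (by decide)
    · intro u v huv hadj
      by_contra hcon
      push Not at hcon
      have h3 : 2 < G.edist u v := by
        rw [SimpleGraph.two_lt_edist_iff]
        refine ⟨huv, hadj, ?_⟩
        rw [Set.eq_empty_iff_forall_notMem]
        intro w hw
        rw [SimpleGraph.mem_commonNeighbors] at hw
        exact hcon w hw.1 hw.2.symm
      have h4 : G.edist u v ≤ 2 := hed ▸ SimpleGraph.edist_le_ediam
      exact absurd h3 (not_lt.2 h4)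
  · rintro ⟨⟨u, v, huv, hadj⟩, h⟩
    have hle : G.ediam ≤ 2 := by
      apply SimpleGraph.ediam_le_of_edist_le
      intro a b
      by_contra hcon
      rw [not_le, SimpleGraph.two_lt_edist_iff] at hcon
      obtain ⟨h1, h2, h3⟩ := hcon
      obtain ⟨w, hw1, hw2⟩ := h a b h1 h2
      have : w ∈ G.commonNeighbors a b := by
        rw [SimpleGraph.mem_commonNeighbors]
        exact ⟨hw1, hw2.symm⟩
      rw [h3] at this
      exact this
    have hge : 2 ≤ G.ediam := by
      have h1 : G.edist u v = 2 := by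
        rw [SimpleGraph.edist_eq_two_iff]
        obtain ⟨w, hw1, hw2⟩ := h u v huv hadj
        exact ⟨huv, hadj, w, by rw [SimpleGraph.mem_commonNeighbors]; exact ⟨hw1, hw2.symm⟩⟩
      rw [← h1]
      exact SimpleGraph.edist_le_ediam
    have : G.ediam = 2 := le_antisymm hle hge
    show G.ediam.toNat = 2
    rw [this]
    rfl

/-- the graph `C₅(k 0, …, k 4)` -/
def C5 (k : Fin 5 → ℕ) : SimpleGraph (Σ i : Fin 5, Fin (k i)) where
  Adj x y := x ≠ y ∧ (x.1 = y.1 ∨ y.1 = x.1 + 1 ∨ x.1 = y.1 + 1)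
  symm := ⟨fun _ _ h => ⟨h.1.symm, h.2.elim (fun h => Or.inl h.symm)
    (fun h => h.elim (fun h => Or.inr (Or.inr h)) (fun h => Or.inr (Or.inl h)))⟩⟩
  loopless := ⟨fun _ h => h.1 rfl⟩

theorem C5_adj (k : Fin 5 → ℕ) (x y : Σ i : Fin 5, Fin (k i)) :
    (C5 k).Adj x y ↔ x ≠ y ∧ (x.1 = y.1 ∨ y.1 = x.1 + 1 ∨ x.1 = y.1 + 1) := Iff.rfl

/-- every vertex has a neighbour in `S` -/
def TDS {V : Type*} (G : SimpleGraph V) (S : Finset V) : Prop :=
  ∀ v, ∃ w ∈ S, G.Adj v w

/-- 3_t-critical -/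
def Crit {V : Type*} (G : SimpleGraph V) : Prop :=
  (∃ S, TDS G S ∧ S.card = 3) ∧ (∀ S, TDS G S → 3 ≤ S.card) ∧
    ∀ u v, u ≠ v → ¬ G.Adj u v → ∃ S, TDS (G ⊔ SimpleGraph.edge u v) S ∧ S.card < 3

theorem tds_edge {V : Type*} {G : SimpleGraph V} {u v : V} (huv : u ≠ v) (S : Finset V) :
    TDS (G ⊔ SimpleGraph.edge u v) S ↔
      ∀ x, ∃ w ∈ S, (G.Adj x w ∨ (x = u ∧ w = v) ∨ (x = v ∧ w = u)) := by
  unfold TDS
  refine forall_congr' fun x => exists_congr fun w => and_congr_right fun _ => ?_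
  rw [SimpleGraph.sup_adj, SimpleGraph.edge_adj]
  constructor
  · rintro (h | h)
    · exact Or.inl h
    · exact Or.inr h.1
  · rintro (h | h | h)
    · exact Or.inl h
    · exact Or.inr ⟨Or.inl h, by rw [h.1, h.2]; exact huv⟩
    · exact Or.inr ⟨Or.inr h, by rw [h.1, h.2]; exact huv.symm⟩

/-! ### The graphs `C₅(k)` -/

section blow

variable (k : Fin 5 → ℕ) (hk : ∀ i, 1 ≤ k i)

/-- a vertex in part `i` -/
def pt (i : Fin 5) : Σ i : Fin 5, Fin (k i) := ⟨i, ⟨0, hk i⟩⟩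

include hk

theorem C5_diam : (C5 k).diam = 2 := by
  rw [diam_two_iff]
  refine ⟨⟨pt k hk 0, pt k hk 2, ?_, ?_⟩, ?_⟩
  · intro h
    have h1 : (0 : Fin 5) = 2 := congrArg Sigma.fst h
    exact absurd h1 (by decide)
  · rw [C5_adj]
    rintro ⟨-, h⟩
    have h1 : ((0 : Fin 5) = 2 ∨ (2 : Fin 5) = 0 + 1 ∨ (0 : Fin 5) = 2 + 1) := h
    exact absurd h1 (by decide)
  · intro u v huv hadj
    rw [C5_adj] at hadj
    have h1 : ¬ (u.1 = v.1 ∨ v.1 = u.1 + 1 ∨ u.1 = v.1 + 1) := fun h => hadj ⟨huv, h⟩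
    have key : ∀ a b : Fin 5, ¬ (a = b ∨ b = a + 1 ∨ a = b + 1) →
        ∃ c : Fin 5, (c = a + 1 ∨ a = c + 1) ∧ (b = c + 1 ∨ c = b + 1) ∧ a ≠ c ∧ c ≠ b := by
      decide
    obtain ⟨c, hc1, hc2, hc3, hc4⟩ := key u.1 v.1 h1
    refine ⟨pt k hk c, ?_, ?_⟩
    · rw [C5_adj]
      exact ⟨fun h => hc3 (congrArg Sigma.fst h), Or.inr hc1⟩
    · rw [C5_adj]
      exact ⟨fun h => hc4 (congrArg Sigma.fst h), Or.inr hc2⟩

theorem C5_crit : Crit (C5 k) := by
  classical
  refine ⟨?_, ?_, ?_⟩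
  · refine ⟨{pt k hk 0, pt k hk 1, pt k hk 2}, ?_, ?_⟩
    · intro v
      have key : ∀ a : Fin 5, ∃ c : Fin 5, (c = 0 ∨ c = 1 ∨ c = 2) ∧ a ≠ c ∧
          (c = a + 1 ∨ a = c + 1) := by decide
      obtain ⟨c, hc1, hc2, hc3⟩ := key v.1
      refine ⟨pt k hk c, ?_, ?_⟩
      · simp only [mem_insert, mem_singleton]
        rcases hc1 with rfl | rfl | rfl
        · exact Or.inl rfl
        · exact Or.inr (Or.inl rfl)
        · exact Or.inr (Or.inr rfl)
      · rw [C5_adj]
        exact ⟨fun h => hc2 (congrArg Sigma.fst h), Or.inr hc3⟩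
    · rw [card_insert_of_notMem, card_insert_of_notMem, card_singleton]
      · rw [mem_singleton]
        intro h
        have h1 : (1 : Fin 5) = 2 := congrArg Sigma.fst h
        exact absurd h1 (by decide)
      · simp only [mem_insert, mem_singleton, not_or]
        refine ⟨fun h => ?_, fun h => ?_⟩
        · have h1 : (0 : Fin 5) = 1 := congrArg Sigma.fst h
          exact absurd h1 (by decide)
        · have h1 : (0 : Fin 5) = 2 := congrArg Sigma.fst h
          exact absurd h1 (by decide)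
  · intro S hS
    by_contra hcon
    have hcard : S.card ≤ 2 := by omega
    -- an element and its neighbour in `S`
    obtain ⟨a, ha, -⟩ := hS (pt k hk 0)
    obtain ⟨b, hb, hab⟩ := hS a
    have hne : a ≠ b := hab.1
    have hSe : S = {a, b} := by
      symm
      apply eq_of_subset_of_card_le
      · intro z hz
        rw [mem_insert, mem_singleton] at hz
        rcases hz with rfl | rfl
        · exact ha
        · exact hb
      · rw [card_pair hne]
        exact hcard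
    have key : ∀ a b : Fin 5, (a = b ∨ b = a + 1 ∨ a = b + 1) →
        ∃ c : Fin 5, ¬ (c = a ∨ a = c + 1 ∨ c = a + 1) ∧ ¬ (c = b ∨ b = c + 1 ∨ c = b + 1) := by
      decide
    obtain ⟨c, hc1, hc2⟩ := key a.1 b.1 hab.2
    obtain ⟨w, hw, hcw⟩ := hS (pt k hk c)
    rw [hSe, mem_insert, mem_singleton] at hw
    rcases hw with rfl | rfl
    · exact hc1 hcw.2
    · exact hc2 hcw.2
  · intro u v huv hadj
    rw [C5_adj] at hadj
    have h1 : ¬ (u.1 = v.1 ∨ v.1 = u.1 + 1 ∨ u.1 = v.1 + 1) := fun h => hadj ⟨huv, h⟩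
    refine ⟨{u, v}, ?_, by rw [card_pair huv]; norm_num⟩
    rw [tds_edge huv]
    intro x
    by_cases hxu : x = u
    · exact ⟨v, by simp, Or.inr (Or.inl ⟨hxu, rfl⟩)⟩
    by_cases hxv : x = v
    · exact ⟨u, by simp, Or.inr (Or.inr ⟨hxv, rfl⟩)⟩
    have key : ∀ a b c : Fin 5, ¬ (a = b ∨ b = a + 1 ∨ a = b + 1) →
        (c = a ∨ a = c + 1 ∨ c = a + 1) ∨ (c = b ∨ b = c + 1 ∨ c = b + 1) := by
      decide
    rcases key u.1 v.1 x.1 h1 with h | h
    · exact ⟨u, by simp, Or.inl ⟨hxu, h⟩⟩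
    · exact ⟨v, by simp, Or.inl ⟨hxv, h⟩⟩

end blow

end Pool.Agent.H67.TCR
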