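import Pool.Agent.H46.Final6

set_option autoImplicit false

namespace Pool.Agent.H67.TCR

/-- For all large n, every n-vertex diameter-2 graph with total domination number 3 that drops below 3 on adding any edge has at least ⌊(n²−4)/4⌋ edges, with equality iff it is a blown-up 5-cycle with blob sizes 1, ⌊(n−3)/2⌋ or ⌈(n−3)/2⌉, 1, ≥1, ≥1. -/
theorem main_fin :
    ∃ N : ℕ, ∀ n : ℕ, N ≤ n → 2 ≤ n →
      ∀ (G : SimpleGraph (Fin n)) [DecidableRel G.Adj],
        ((∃ S : Finset (Fin n), S.card = 3 ∧ ∀ x, ∃ w ∈ S, G.Adj x w) ∧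
         (∀ S : Finset (Fin n), S.card ≤ 2 → ¬ ∀ x, ∃ w ∈ S, G.Adj x w) ∧
         (∀ u v : Fin n, u ≠ v → ¬ G.Adj u v →
            ∃ S : Finset (Fin n), S.card ≤ 2 ∧
              ∀ x, ∃ w ∈ S, (G.Adj x w ∨ (x = u ∧ w = v) ∨ (x = v ∧ w = u)))) →
        G.diam = 2 →
        ((n ^ 2 - 4) / 4 ≤ G.edgeFinset.card ∧
         (G.edgeFinset.card = (n ^ 2 - 4) / 4 ↔
           ∃ f : Fin n → Fin 5,
             (∀ x y : Fin n, G.Adj x y ↔
                (x ≠ y ∧ (f x = f y ∨ f y = f x + 1 ∨ f x = f y + 1))) ∧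
             (Finset.univ.filter (fun x => f x = 0)).card = 1 ∧
             (Finset.univ.filter (fun x => f x = 2)).card = 1 ∧
             ((Finset.univ.filter (fun x => f x = 1)).card = (n - 3) / 2 ∨
              (Finset.univ.filter (fun x => f x = 1)).card = (n - 2) / 2) ∧
             1 ≤ (Finset.univ.filter (fun x => f x = 3)).card ∧
             1 ≤ (Finset.univ.filter (fun x => f x = 4)).card)) := by
  obtain ⟨n0, h0⟩ := Pool.Agent.H46.main_H
  refine ⟨n0, ?_⟩
  intro n hn hn2 G _ hG hdiam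
  obtain ⟨-, h2, h3⟩ := hG
  have hC := Pool.Agent.H46.compl_critHyp G h2 h3
  have hD := Pool.Agent.H46.compl_diamHyp G h2
  have hN := Pool.Agent.H46.compl_noDom G hdiam
  have hcount := Pool.Agent.H46.compl_count G
  have har := Pool.Agent.H46.arith_main hn2
  set E := G.edgeFinset.card with hE
  set D := Pool.Agent.H46.cnt (Gᶜ).Adj Finset.univ Finset.univ with hDdef
  -- translation of the shape
  have hshape : (∃ f : Fin n → Fin 5,
             (∀ x y : Fin n, G.Adj x y ↔
                (x ≠ y ∧ (f x = f y ∨ f y = f x + 1 ∨ f x = f y + 1))) ∧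
             (Finset.univ.filter (fun x => f x = 0)).card = 1 ∧
             (Finset.univ.filter (fun x => f x = 2)).card = 1 ∧
             ((Finset.univ.filter (fun x => f x = 1)).card = (n - 3) / 2 ∨
              (Finset.univ.filter (fun x => f x = 1)).card = (n - 2) / 2) ∧
             1 ≤ (Finset.univ.filter (fun x => f x = 3)).card ∧
             1 ≤ (Finset.univ.filter (fun x => f x = 4)).card) ↔ Pool.Agent.H46.Shape Gᶜ := by
    unfold Pool.Agent.H46.Shape
    rw [Fintype.card_fin]
    constructor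
    · rintro ⟨f, hf, hrest⟩
      refine ⟨f, ?_, hrest⟩
      intro x y
      rw [SimpleGraph.compl_adj, hf x y, Pool.Agent.H46.fin5_iff]
      constructor
      · rintro ⟨hne, hn⟩ hc
        exact hn ⟨hne, hc⟩
      · intro hn
        refine ⟨?_, fun hc => hn hc.2⟩
        rintro rfl
        exact hn (Or.inl rfl)
    · rintro ⟨f, hf, hrest⟩
      refine ⟨f, ?_, hrest⟩
      intro x y
      have h := hf x y
      rw [SimpleGraph.compl_adj, Pool.Agent.H46.fin5_iff] at h
      constructor
      · intro hxy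
        refine ⟨hxy.ne, ?_⟩
        by_contra hc
        exact (h.2 hc).2 hxy
      · rintro ⟨hne, hc⟩
        by_contra hn
        exact h.1 ⟨hne, hn⟩ hc
  rw [hshape]
  have hback : Pool.Agent.H46.Shape Gᶜ → D = 2 * ((n - 1) ^ 2 / 4 + 1) := by
    intro hS
    have := Pool.Agent.H46.shape_count hS
    rw [Fintype.card_fin] at this
    exact this
  by_cases hbig : (n : ℝ) ^ 2 / 2 - (n : ℝ) ≤ (D : ℝ)
  · have hgoal := h0 (Fin n) Gᶜ (by rw [Fintype.card_fin]; exact hn) hC hD hN
      (by rw [Fintype.card_fin]; exact hbig)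
    unfold Pool.Agent.H46.Goal at hgoal
    rw [Fintype.card_fin, ← hDdef] at hgoal
    obtain ⟨hle, heq⟩ := hgoal
    refine ⟨by omega, ?_, ?_⟩
    · intro hEm
      apply heq
      omega
    · intro hS
      have := hback hS
      omega
  · rw [not_le] at hbig
    have hlt : 2 * D + 2 * n < n ^ 2 := by
      have h1 : (2 * (D : ℝ) + 2 * (n : ℝ)) < (n : ℝ) ^ 2 := by linarith
      exact_mod_cast h1
    have hEgt : (n ^ 2 - 4) / 4 < E := by omega
    refine ⟨hEgt.le, ?_, ?_⟩
    · intro hEm; omega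
    · intro hS
      have := hback hS
      omega

end Pool.Agent.H67.TCR
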