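import Pool.Agent.H67.TCR.Gen

/-!
MP_6c214f_co: transport to an arbitrary finite vertex set, the shape in terms of an
isomorphism with `C₅(k)`, and the number of edges.
-/

set_option autoImplicit false

open Finset

namespace Pool.Agent.H67.TCR

theorem tds_iso {V W : Type*} {G : SimpleGraph V} {H : SimpleGraph W} (e : G ≃g H)
    {S : Finset V} (hS : TDS G S) : TDS H (S.map e.toEquiv.toEmbedding) := by
  intro x
  obtain ⟨w, hw, hadj⟩ := hS (e.symm x)
  refine ⟨e w, ?_, ?_⟩
  · rw [mem_map]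
    exact ⟨w, hw, rfl⟩
  · have := e.map_adj_iff.2 hadj
    rwa [RelIso.apply_symm_apply] at this

theorem crit_iso {V W : Type*} {G : SimpleGraph V} {H : SimpleGraph W} (e : G ≃g H)
    (h : Crit G) : Crit H := by
  obtain ⟨⟨S, hS, hc⟩, h2, h3⟩ := h
  refine ⟨⟨S.map e.toEquiv.toEmbedding, tds_iso e hS, by rw [card_map, hc]⟩, ?_, ?_⟩
  · intro T hT
    have := h2 _ (tds_iso e.symm hT)
    rwa [card_map] at this
  · intro u v huv hadj
    have huv' : e.symm u ≠ e.symm v := fun h => huv (e.symm.injective h)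
    have hadj' : ¬ G.Adj (e.symm u) (e.symm v) := fun h => hadj (e.symm.map_adj_iff.1 h)
    obtain ⟨S, hS, hc⟩ := h3 _ _ huv' hadj'
    rw [tds_edge huv'] at hS
    refine ⟨S.map e.toEquiv.toEmbedding, ?_, by rw [card_map]; exact hc⟩
    rw [tds_edge huv]
    intro x
    obtain ⟨w, hw, h⟩ := hS (e.symm x)
    refine ⟨e w, mem_map.2 ⟨w, hw, rfl⟩, ?_⟩
    rcases h with h | ⟨h, h'⟩ | ⟨h, h'⟩
    · left
      have := e.map_adj_iff.2 h
      rwa [RelIso.apply_symm_apply] at this
    · right; left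
      exact ⟨e.symm.injective h, by rw [h', RelIso.apply_symm_apply]⟩
    · right; right
      exact ⟨e.symm.injective h, by rw [h', RelIso.apply_symm_apply]⟩

theorem diam_iso {V W : Type*} {G : SimpleGraph V} {H : SimpleGraph W} (e : G ≃g H)
    (h : G.diam = 2) : H.diam = 2 := by
  rw [diam_two_iff] at h ⊢
  obtain ⟨⟨u, v, huv, hadj⟩, h2⟩ := h
  refine ⟨⟨e u, e v, fun h => huv (e.injective h), fun h => hadj (e.map_adj_iff.1 h)⟩, ?_⟩
  intro a b hab hn
  obtain ⟨w, hw1, hw2⟩ := h2 (e.symm a) (e.symm b) (fun h => hab (e.symm.injective h))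
    (fun h => hn (e.symm.map_adj_iff.1 h))
  refine ⟨e w, ?_, ?_⟩
  · have := e.map_adj_iff.2 hw1
    rwa [RelIso.apply_symm_apply] at this
  · have := e.map_adj_iff.2 hw2
    rwa [RelIso.apply_symm_apply] at this

theorem ncard_iso {V W : Type*} [Finite V] [Finite W] {G : SimpleGraph V} {H : SimpleGraph W}
    (e : G ≃g H) : G.edgeSet.ncard = H.edgeSet.ncard := by
  classical
  haveI := Fintype.ofFinite V
  haveI := Fintype.ofFinite W
  rw [Set.ncard_eq_toFinset_card', Set.ncard_eq_toFinset_card']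
  exact e.card_edgeFinset_eq

/-- the size conditions of `𝓗_n` -/
def InH (n : ℕ) (k : Fin 5 → ℕ) : Prop :=
  k 0 = 1 ∧ (k 1 = (n - 3) / 2 ∨ k 1 = (n - 2) / 2) ∧ k 2 = 1 ∧ 1 ≤ k 3 ∧ 1 ≤ k 4 ∧
    n = 2 + k 1 + k 3 + k 4

theorem card_fibre (k : Fin 5 → ℕ) (i : Fin 5) :
    (univ.filter (fun y : Σ i : Fin 5, Fin (k i) => y.1 = i)).card = k i := by
  classical
  rw [← Fintype.card_subtype]
  rw [Fintype.card_congr (Equiv.sigmaSubtype (α := Fin 5) (β := fun i => Fin (k i)) i)]
  exact Fintype.card_fin _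

/-- the shape -/
theorem shape_iff {V : Type*} [Fintype V] (G : SimpleGraph V) :
    (∃ f : V → Fin 5,
             (∀ x y : V, G.Adj x y ↔
                (x ≠ y ∧ (f x = f y ∨ f y = f x + 1 ∨ f x = f y + 1))) ∧
             (Finset.univ.filter (fun x => f x = 0)).card = 1 ∧
             (Finset.univ.filter (fun x => f x = 2)).card = 1 ∧
             ((Finset.univ.filter (fun x => f x = 1)).card = (Fintype.card V - 3) / 2 ∨
              (Finset.univ.filter (fun x => f x = 1)).card = (Fintype.card V - 2) / 2) ∧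
             1 ≤ (Finset.univ.filter (fun x => f x = 3)).card ∧
             1 ≤ (Finset.univ.filter (fun x => f x = 4)).card) ↔
    ∃ k, InH (Fintype.card V) k ∧ Nonempty (G ≃g C5 k) := by
  classical
  constructor
  · rintro ⟨f, hf, h0, h2, h1, h3, h4⟩
    have htot : ∑ i : Fin 5, (univ.filter (fun x => f x = i)).card = Fintype.card V := by
      rw [← card_univ, card_eq_sum_card_fiberwise (f := f) (t := univ)]
      intro x _; simp
    rw [Fin.sum_univ_five] at htot
    refine ⟨fun i => (univ.filter (fun x => f x = i)).card,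
      ⟨h0, h1, h2, h3, h4, by simp only; omega⟩, ⟨?_⟩⟩
    let e : V ≃ Σ i : Fin 5, Fin ((univ.filter (fun x => f x = i)).card) :=
      (Equiv.sigmaFiberEquiv f).symm.trans
        (Equiv.sigmaCongrRight fun i => Fintype.equivFinOfCardEq (Fintype.card_subtype _))
    have he : ∀ x, (e x).1 = f x := fun x => rfl
    refine ⟨e, ?_⟩
    intro a b
    rw [C5_adj, hf a b, he a, he b]
    refine and_congr_left fun _ => ?_
    exact not_congr e.injective.eq_iff
  · rintro ⟨k, ⟨h0, h1, h2, h3, h4, h5⟩, ⟨e⟩⟩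
    have hfib : ∀ i : Fin 5, (univ.filter (fun x : V => (e x).1 = i)).card = k i := by
      intro i
      rw [← card_fibre k i]
      apply card_bij (fun x _ => e x)
      · intro x hx
        rw [mem_filter] at hx ⊢
        exact ⟨mem_univ _, hx.2⟩
      · intro x _ y _ hxy
        exact e.injective hxy
      · intro y hy
        rw [mem_filter] at hy
        refine ⟨e.symm y, ?_, by simp⟩
        rw [mem_filter]
        refine ⟨mem_univ _, ?_⟩
        rw [RelIso.apply_symm_apply]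
        exact hy.2
    refine ⟨fun x => (e x).1, ?_, ?_, ?_, ?_, ?_, ?_⟩
    · intro x y
      rw [← e.map_adj_iff, C5_adj]
      refine and_congr_left fun _ => ?_
      exact not_congr e.injective.eq_iff
    · rw [hfib]; exact h0
    · rw [hfib]; exact h2
    · rw [hfib]; exact h1
    · rw [hfib]; exact h3
    · rw [hfib]; exact h4

/-- a copy on `Fin n` -/
theorem exists_fin {V : Type*} [Fintype V] (G : SimpleGraph V) :
    ∃ G' : SimpleGraph (Fin (Fintype.card V)), Nonempty (G ≃g G') :=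
  ⟨G.comap (Fintype.equivFin V).symm, ⟨(SimpleGraph.Iso.comap (Fintype.equivFin V).symm G).symm⟩⟩

theorem main_gen : ∃ N : ℕ, ∀ (V : Type) [Fintype V] (G : SimpleGraph V),
    N ≤ Fintype.card V → Crit G → G.diam = 2 →
      ((Fintype.card V ^ 2 - 4) / 4 ≤ G.edgeSet.ncard ∧
        (G.edgeSet.ncard = (Fintype.card V ^ 2 - 4) / 4 ↔
          ∃ k, InH (Fintype.card V) k ∧ Nonempty (G ≃g C5 k))) := by
  classical
  obtain ⟨N, hN⟩ := main_fin
  refine ⟨max N 2, ?_⟩
  intro V _ G hn hG hd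
  obtain ⟨G', ⟨e⟩⟩ := exists_fin G
  obtain ⟨⟨S, hS, hc⟩, h2, h3⟩ := crit_iso e hG
  have h := hN (Fintype.card V) (le_trans (le_max_left _ _) hn)
    (le_trans (le_max_right _ _) hn) G' ⟨⟨S, hc, hS⟩, ?_, ?_⟩ (diam_iso e hd)
  · have hE : G.edgeSet.ncard = G'.edgeFinset.card := by
      rw [ncard_iso e, Set.ncard_eq_toFinset_card']
      rfl
    rw [hE]
    refine ⟨h.1, h.2.trans ?_⟩
    have hs := shape_iff G'
    rw [Fintype.card_fin] at hs
    rw [hs]
    constructor
    · rintro ⟨k, hk, ⟨e'⟩⟩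
      exact ⟨k, hk, ⟨e.trans e'⟩⟩
    · rintro ⟨k, hk, ⟨e'⟩⟩
      exact ⟨k, hk, ⟨e.symm.trans e'⟩⟩
  · intro T hT hT'
    have := h2 T hT'
    omega
  · intro u v huv hadj
    obtain ⟨T, hT, hTc⟩ := h3 u v huv hadj
    rw [tds_edge huv] at hT
    exact ⟨T, by omega, hT⟩

theorem C5_edges {n : ℕ} {k : Fin 5 → ℕ} (hk : InH n k) :
    (C5 k).edgeSet.ncard = (n ^ 2 - 4) / 4 := by
  classical
  have hcard : Fintype.card (Σ i : Fin 5, Fin (k i)) = n := by
    rw [Fintype.card_sigma]
    simp only [Fintype.card_fin]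
    rw [Fin.sum_univ_five]
    obtain ⟨h0, h1, h2, h3, h4, h5⟩ := hk
    omega
  obtain ⟨G', ⟨e⟩⟩ := exists_fin (C5 k)
  have hE : (C5 k).edgeSet.ncard = G'.edgeFinset.card := by
    rw [ncard_iso e, Set.ncard_eq_toFinset_card']
    rfl
  rw [hE]
  have hs := (shape_iff G').2 ⟨k, by rw [Fintype.card_fin, hcard]; exact hk, ⟨e.symm⟩⟩
  have hshape : Pool.Agent.H46.Shape G'ᶜ := by
    unfold Pool.Agent.H46.Shape
    obtain ⟨f, hf, hrest⟩ := hs
    refine ⟨f, ?_, hrest⟩
    intro x y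
    rw [SimpleGraph.compl_adj, hf x y, Pool.Agent.H46.fin5_iff]
    constructor
    · rintro ⟨hne, hn⟩ hc
      exact hn ⟨hne, hc⟩
    · intro hn
      refine ⟨?_, fun hc => hn hc.2⟩
      rintro rfl
      exact hn (Or.inl rfl)
  have h1 := Pool.Agent.H46.shape_count hshape
  have h2 := Pool.Agent.H46.compl_count G'
  have hn2 : 2 ≤ Fintype.card (Σ i : Fin 5, Fin (k i)) := by
    rw [hcard]
    obtain ⟨h0, h1, h2, h3, h4, h5⟩ := hk
    omega
  have h3 := Pool.Agent.H46.arith_main hn2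
  rw [Fintype.card_fin] at h1
  rw [h1] at h2
  have : G'.edgeFinset.card = (Fintype.card (Σ i : Fin 5, Fin (k i)) ^ 2 - 4) / 4 := by
    omega
  rw [this, hcard]

end Pool.Agent.H67.TCR
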